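import Pool.Agent.N969.P15.Defs

/-! # The character sum over the cusps for a given matrix of determinant `n` or `2 n`

Adaptation of `Pool/Agent/Z125/C1B.lean` to level `15`: the primes dividing `n` may be
`≡ 3 mod 4`. -/

set_option autoImplicit false
set_option linter.all false

namespace Pool.Agent.N402.P15

open Finset Pool.Agent.N969.P15

section gen

theorem dsr {p b c : ℤ} (h : p ∣ b) (h' : p ∣ b - c) : p ∣ c := by
  have h1 := dvd_sub h h'
  rwa [sub_sub_cancel] at h1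

theorem pr_dvd_int {P : Finset ℕ} (hP : ∀ p ∈ P, p.Prime) {x : ℤ}
    (h : ∀ p ∈ P, (p : ℤ) ∣ x) : ((∏ p ∈ P, p : ℕ) : ℤ) ∣ x :=
  Int.natCast_dvd.2 (Finset.prod_primes_dvd _ (fun p hp => (hP p hp).prime)
    (fun p hp => Int.natCast_dvd.1 (h p hp)))

theorem jac_pr {P : Finset ℕ} (hP : ∀ p ∈ P, p.Prime) (x : ℤ) :
    jacobiSym x (∏ p ∈ P, p) = ∏ p ∈ P, jacobiSym x p := by
  classical
  induction P using Finset.induction_on with
  | empty => simp
  | insert p P hp ih =>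
    rw [Finset.prod_insert hp, jacobiSym.mul_right' _ (hP p (mem_insert_self _ _)).ne_zero
      (Finset.prod_pos fun q hq => (hP q (mem_insert_of_mem hq)).pos).ne', Finset.prod_insert hp,
      ih fun q hq => hP q (mem_insert_of_mem hq)]

theorem jac_congr {x y : ℤ} {p : ℕ} (h : (p : ℤ) ∣ x - y) : jacobiSym x p = jacobiSym y p :=
  jacobiSym.mod_left' (Int.modEq_iff_dvd.2 h).symm

theorem jac_ne_zero {x : ℤ} {p : ℕ} (hp : p.Prime) (h : ¬ (p : ℤ) ∣ x) : jacobiSym x p ≠ 0 := by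
  rw [Ne, jacobiSym.eq_zero_iff, not_and_or, not_not, not_not]
  right
  rw [Int.gcd_comm]
  exact (Nat.Prime.coprime_iff_not_dvd hp).2 (fun h' => h (Int.natCast_dvd.2 (by simpa using h')))

theorem jac_zero {x : ℤ} {p : ℕ} (hp : p.Prime) (h : (p : ℤ) ∣ x) : jacobiSym x p = 0 := by
  by_contra h0
  rw [jacobiSym.eq_zero_iff, not_and_or, not_not, not_not] at h0
  rcases h0 with h0 | h0
  · exact hp.ne_zero h0
  · rw [Int.gcd_comm] at h0
    have h1 : p ∣ x.natAbs := Int.natCast_dvd.1 h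
    have h2 : (Int.gcd (p : ℤ) x) = p := by
      rw [Int.gcd_eq_natAbs, Int.natAbs_natCast]
      exact Nat.gcd_eq_left h1
    rw [h2] at h0
    exact hp.one_lt.ne' h0

theorem jac_sq {x : ℤ} {p : ℕ} (hp : p.Prime) (h : ¬ (p : ℤ) ∣ x) :
    jacobiSym x p * jacobiSym x p = 1 := by
  rcases jacobiSym.trichotomy x p with h1 | h1 | h1
  · exact absurd h1 (jac_ne_zero hp h)
  · rw [h1]; norm_num
  · rw [h1]; norm_num

end gen

section local_

variable {p a a' X Y : ℕ} (hp : p.Prime)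

include hp in
theorem local_eq (h2 : ¬ p ^ 2 ∣ a * Y + a' * X)
    (u : ℤ) (h5 : (p : ℤ) ∣ a * u + X) (h6 : (p : ℤ) ∣ a' * u - Y) (h7 : ¬ (p : ℤ) ∣ u) :
    jacobiSym u p = psp p a a' Y X := by
  have hpp := Nat.prime_iff_prime_int.1 hp
  unfold psp
  by_cases ha : p ∣ a
  · have haz : (p : ℤ) ∣ a := by exact_mod_cast ha
    have hX : p ∣ X := by
      have : (p : ℤ) ∣ X := (Int.dvd_add_right (Dvd.dvd.mul_right haz u)).1 h5
      exact_mod_cast this
    rw [if_pos ⟨ha, hX⟩]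
    have ha' : ¬ (p : ℤ) ∣ a' := by
      intro ha'
      have hY : (p : ℤ) ∣ Y := dsr (Dvd.dvd.mul_right ha' u) h6
      apply h2
      have hY' : p ∣ Y := by exact_mod_cast hY
      have ha'' : p ∣ a' := by exact_mod_cast ha'
      rw [pow_two]
      exact dvd_add (mul_dvd_mul ha hY') (mul_dvd_mul ha'' hX)
    have h8 : (p : ℤ) ∣ ((a' * Y : ℕ) : ℤ) - a' * a' * u := by
      have : ((a' * Y : ℕ) : ℤ) - a' * a' * u = -(a' * (a' * u - Y)) := by push_cast; ring
      rw [this]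
      exact (Dvd.dvd.mul_left h6 _).neg_right
    rw [jac_congr h8, jacobiSym.mul_left, jacobiSym.mul_left, jac_sq hp ha', one_mul]
  · rw [if_neg (fun h => ha h.1)]
    have haz : ¬ (p : ℤ) ∣ a := by exact_mod_cast ha
    have h8 : (p : ℤ) ∣ -((a * X : ℕ) : ℤ) - (a * a * u) := by
      have : -((a * X : ℕ) : ℤ) - (a * a * u) = -(a * (a * u + X)) := by push_cast; ring
      rw [this]
      exact (Dvd.dvd.mul_left h5 _).neg_right
    rw [jac_congr h8, jacobiSym.mul_left, jacobiSym.mul_left, jac_sq hp haz, one_mul]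

include hp in
theorem local_ex (h3 : p ∣ a * Y + a' * X) (hpsp : psp p a a' Y X ≠ 0) :
    ∃ u : ℕ, (p : ℤ) ∣ a * u + X ∧ (p : ℤ) ∣ a' * u - Y ∧ ¬ (p : ℤ) ∣ u := by
  have hpp := Nat.prime_iff_prime_int.1 hp
  haveI : Fact p.Prime := ⟨hp⟩
  have hinv : ∀ x : ℕ, ¬ p ∣ x → ∃ y : ℕ, (p : ℤ) ∣ x * y - 1 := by
    intro x hx
    refine ⟨((x : ZMod p)⁻¹).val, ?_⟩
    rw [← ZMod.intCast_zmod_eq_zero_iff_dvd]
    push_cast
    rw [ZMod.natCast_zmod_val, mul_inv_cancel₀, sub_self]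
    rw [Ne, ZMod.natCast_eq_zero_iff]
    exact hx
  unfold psp at hpsp
  split_ifs at hpsp with h
  · obtain ⟨ha, hX⟩ := h
    have h5 : ¬ (p : ℤ) ∣ ((a' * Y : ℕ) : ℤ) := fun h => hpsp (jac_zero hp h)
    have h6 : ¬ p ∣ a' * Y := by exact_mod_cast h5
    have ha' : ¬ p ∣ a' := fun h => h6 (Dvd.dvd.mul_right h _)
    have hY : ¬ p ∣ Y := fun h => h6 (Dvd.dvd.mul_left h _)
    obtain ⟨y, hy⟩ := hinv a' ha'
    have hyp : ¬ (p : ℤ) ∣ y := by
      intro h
      have h1 : (p : ℤ) ∣ 1 := dsr (Dvd.dvd.mul_left h _) hy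
      exact hpp.not_dvd_one h1
    refine ⟨y * Y, ?_, ?_, ?_⟩
    · exact dvd_add (Dvd.dvd.mul_right (by exact_mod_cast ha) _) (by exact_mod_cast hX)
    · have : (a' : ℤ) * ((y * Y : ℕ) : ℤ) - Y = (a' * y - 1) * Y := by push_cast; ring
      rw [this]
      exact Dvd.dvd.mul_right hy _
    · push_cast
      intro h
      rcases hpp.dvd_or_dvd h with h | h
      · exact hyp h
      · exact hY (by exact_mod_cast h)
  · have h5 : ¬ (p : ℤ) ∣ ((a * X : ℕ) : ℤ) := fun h => hpsp (jac_zero hp h.neg_right)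
    have h6 : ¬ p ∣ a * X := by exact_mod_cast h5
    have ha : ¬ p ∣ a := fun h => h6 (Dvd.dvd.mul_right h _)
    have hX : ¬ p ∣ X := fun h => h6 (Dvd.dvd.mul_left h _)
    obtain ⟨y, hy⟩ := hinv a ha
    have hyp : ¬ (p : ℤ) ∣ y := by
      intro h
      have h1 : (p : ℤ) ∣ 1 := dsr (Dvd.dvd.mul_left h _) hy
      exact hpp.not_dvd_one h1
    have hp1 : (((p - 1 : ℕ) : ℕ) : ℤ) = p - 1 := by
      have := hp.one_lt
      omega
    have haz : ¬ (p : ℤ) ∣ a := by exact_mod_cast ha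
    have e1 : (p : ℤ) ∣ a * ((y * X * (p - 1) : ℕ) : ℤ) + X := by
      have : (a : ℤ) * ((y * X * (p - 1) : ℕ) : ℤ) + X =
          p * (a * y * X) - (a * y - 1) * X := by
        push_cast
        rw [hp1]
        ring
      rw [this]
      exact dvd_sub (Dvd.intro _ rfl) (Dvd.dvd.mul_right hy _)
    refine ⟨y * X * (p - 1), e1, ?_, ?_⟩
    · have h7 : (p : ℤ) ∣ a * (a' * ((y * X * (p - 1) : ℕ) : ℤ) - Y) := by
        have : (a : ℤ) * (a' * ((y * X * (p - 1) : ℕ) : ℤ) - Y) =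
          a' * (a * ((y * X * (p - 1) : ℕ) : ℤ) + X) - ((a * Y + a' * X : ℕ) : ℤ) := by
          push_cast; ring
        rw [this]
        exact dvd_sub (Dvd.dvd.mul_left e1 _) (by exact_mod_cast h3)
      rcases hpp.dvd_or_dvd h7 with h8 | h8
      · exact absurd h8 haz
      · exact h8
    · push_cast
      rw [hp1]
      intro h
      rcases hpp.dvd_or_dvd h with h | h
      · rcases hpp.dvd_or_dvd h with h | h
        · exact hyp h
        · exact hX (by exact_mod_cast h)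
      · have h1 : (p : ℤ) ∣ 1 := dsr (dvd_refl (p : ℤ)) h
        exact hpp.not_dvd_one h1

include hp in
theorem local_uniq (h2 : ¬ p ^ 2 ∣ a * Y + a' * X)
    (u w : ℤ) (h5 : (p : ℤ) ∣ a * u + X) (h6 : (p : ℤ) ∣ a' * u - Y)
    (h5' : (p : ℤ) ∣ a * w + X) (h6' : (p : ℤ) ∣ a' * w - Y) : (p : ℤ) ∣ u - w := by
  have hpp := Nat.prime_iff_prime_int.1 hp
  have h7 : (p : ℤ) ∣ a * (u - w) := by
    have : (a : ℤ) * (u - w) = (a * u + X) - (a * w + X) := by ring
    rw [this]; exact dvd_sub h5 h5'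
  have h8 : (p : ℤ) ∣ a' * (u - w) := by
    have : (a' : ℤ) * (u - w) = (a' * u - Y) - (a' * w - Y) := by ring
    rw [this]; exact dvd_sub h6 h6'
  rcases hpp.dvd_or_dvd h7 with ha | h
  · rcases hpp.dvd_or_dvd h8 with ha' | h
    · exfalso
      have hX : (p : ℤ) ∣ X := (Int.dvd_add_right (Dvd.dvd.mul_right ha u)).1 h5
      have hY : (p : ℤ) ∣ Y := dsr (Dvd.dvd.mul_right ha' u) h6
      apply h2
      rw [pow_two]
      exact dvd_add (mul_dvd_mul (by exact_mod_cast ha) (by exact_mod_cast hY))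
        (mul_dvd_mul (by exact_mod_cast ha') (by exact_mod_cast hX))
    · exact h
  · exact h

end local_

/-- the general form: `P` a finite set of primes, `N` divisible exactly once by each of them -/
theorem gen_C1B (P : Finset ℕ) (hP : ∀ p ∈ P, p.Prime) (a a' X Y N : ℕ)
    (hdet : a * Y + a' * X = N) (hN : ∀ p ∈ P, p ∣ N ∧ ¬ p ^ 2 ∣ N) :
    ∑ u ∈ (un (∏ p ∈ P, p)).filter (fun u : ℕ => ((∏ p ∈ P, p : ℕ) : ℤ) ∣ (a : ℤ) * (u : ℤ) + (X : ℤ) ∧
      ((∏ p ∈ P, p : ℕ) : ℤ) ∣ (a' : ℤ) * (u : ℤ) - (Y : ℤ)), jacobiSym u (∏ p ∈ P, p) =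
      ∏ p ∈ P, psp p a a' Y X := by
  classical
  have hm : 0 < ∏ p ∈ P, p := Finset.prod_pos fun q hq => (hP q hq).pos
  have hdn : ∀ p ∈ P, p ∣ ∏ p ∈ P, p := fun p hp => Finset.dvd_prod_of_mem _ hp
  set n := ∏ p ∈ P, p with hn
  set F := (un n).filter (fun u : ℕ => (n : ℤ) ∣ (a : ℤ) * (u : ℤ) + (X : ℤ) ∧
    (n : ℤ) ∣ (a' : ℤ) * (u : ℤ) - (Y : ℤ)) with hF
  have hdp : ∀ p ∈ P, (p : ℤ) ∣ (n : ℤ) := fun p hp => by exact_mod_cast hdn p hp
  have h2 : ∀ p ∈ P, ¬ p ^ 2 ∣ a * Y + a' * X := fun p hp => by rw [hdet]; exact (hN p hp).2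
  have h3 : ∀ p ∈ P, p ∣ a * Y + a' * X := fun p hp => by rw [hdet]; exact (hN p hp).1
  have hmem : ∀ u ∈ F, u < n ∧ ∀ p ∈ P, (p : ℤ) ∣ a * (u : ℤ) + X ∧
      (p : ℤ) ∣ a' * (u : ℤ) - Y ∧ ¬ (p : ℤ) ∣ (u : ℤ) := by
    intro u hu
    rw [hF, Finset.mem_filter, un, Finset.mem_filter, Finset.mem_range] at hu
    obtain ⟨⟨hu1, hu2⟩, hu3, hu4⟩ := hu
    refine ⟨hu1, fun p hp => ⟨(hdp p hp).trans hu3, (hdp p hp).trans hu4, fun h => ?_⟩⟩
    have h5 : p ∣ u := by exact_mod_cast h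
    have h6 : p ∣ Nat.gcd u n := Nat.dvd_gcd h5 (hdn p hp)
    rw [hu2] at h6
    exact (hP p hp).one_lt.ne' (Nat.dvd_one.1 h6)
  have hval : ∀ u ∈ F, jacobiSym u n = ∏ p ∈ P, psp p a a' Y X := by
    intro u hu
    rw [hn, jac_pr hP]
    refine Finset.prod_congr rfl fun p hp => ?_
    obtain ⟨h5, h6, h7⟩ := (hmem u hu).2 p hp
    exact local_eq (hP p hp) (h2 p hp) u h5 h6 h7
  by_cases hz : ∃ p ∈ P, psp p a a' Y X = 0
  · obtain ⟨p, hp, hp0⟩ := hz
    have hFe : F = ∅ := by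
      rw [Finset.eq_empty_iff_forall_notMem]
      intro u hu
      obtain ⟨h5, h6, h7⟩ := (hmem u hu).2 p hp
      have h8 := local_eq (hP p hp) (h2 p hp) u h5 h6 h7
      rw [hp0] at h8
      exact jac_ne_zero (hP p hp) h7 h8
    rw [hFe, Finset.sum_empty]
    exact (Finset.prod_eq_zero hp hp0).symm
  · push Not at hz
    have hex : ∀ p : ℕ, ∃ u : ℕ, p ∈ P → (p : ℤ) ∣ a * u + X ∧ (p : ℤ) ∣ a' * u - Y ∧
        ¬ (p : ℤ) ∣ u := by
      intro p
      by_cases hp : p ∈ P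
      · obtain ⟨u, hu⟩ := local_ex (hP p hp) (h3 p hp) (hz p hp)
        exact ⟨u, fun _ => hu⟩
      · exact ⟨0, fun h => absurd h hp⟩
    choose f hf using hex
    obtain ⟨w, hw⟩ := Nat.chineseRemainderOfFinset f (fun p => p) P
      (fun p hp => (hP p hp).ne_zero) (by
        intro p hp q hq hpq
        exact (Nat.coprime_primes (hP p hp) (hP q hq)).2 hpq)
    set u := w % n with hu
    have hup : ∀ p ∈ P, (p : ℤ) ∣ (u : ℤ) - f p := by
      intro p hp
      have h5 : u ≡ f p [MOD p] := by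
        refine Nat.ModEq.trans ?_ (hw p hp)
        exact (Nat.mod_modEq w n).of_dvd (hdn p hp)
      have h6 := (Nat.modEq_iff_dvd.1 h5)
      have : (u : ℤ) - f p = -((f p : ℤ) - u) := by ring
      rw [this]
      exact h6.neg_right
    have hloc : ∀ p ∈ P, (p : ℤ) ∣ a * (u : ℤ) + X ∧ (p : ℤ) ∣ a' * (u : ℤ) - Y ∧
        ¬ (p : ℤ) ∣ (u : ℤ) := by
      intro p hp
      obtain ⟨h5, h6, h7⟩ := hf p hp
      have h8 := hup p hp
      refine ⟨?_, ?_, fun h => h7 ?_⟩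
      · have : (a : ℤ) * (u : ℤ) + X = a * ((u : ℤ) - f p) + (a * f p + X) := by ring
        rw [this]; exact dvd_add (Dvd.dvd.mul_left h8 _) h5
      · have : (a' : ℤ) * (u : ℤ) - Y = a' * ((u : ℤ) - f p) + (a' * f p - Y) := by ring
        rw [this]; exact dvd_add (Dvd.dvd.mul_left h8 _) h6
      · exact dsr h h8
    have huF : u ∈ F := by
      rw [hF, Finset.mem_filter, un, Finset.mem_filter, Finset.mem_range]
      refine ⟨⟨Nat.mod_lt _ hm, ?_⟩, pr_dvd_int hP fun p hp => (hloc p hp).1,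
        pr_dvd_int hP fun p hp => (hloc p hp).2.1⟩
      rw [hn]
      refine Nat.Coprime.prod_right fun p hp => ?_
      rw [Nat.coprime_comm, Nat.Prime.coprime_iff_not_dvd (hP p hp)]
      intro h
      exact (hloc p hp).2.2 (by exact_mod_cast h)
    have hFs : F = {u} := by
      rw [Finset.eq_singleton_iff_unique_mem]
      refine ⟨huF, fun v hv => ?_⟩
      obtain ⟨hv1, hv2⟩ := hmem v hv
      have h5 : (n : ℤ) ∣ (v : ℤ) - u := pr_dvd_int hP fun p hp =>
        local_uniq (hP p hp) (h2 p hp) v u (hv2 p hp).1 (hv2 p hp).2.1 (hloc p hp).1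
          (hloc p hp).2.1
      have h6 : v ≡ u [MOD n] := by
        rw [Nat.modEq_iff_dvd]
        have : (u : ℤ) - v = -((v : ℤ) - u) := by ring
        rw [this]; exact h5.neg_right
      have h7 : v % n = u % n := h6
      rw [Nat.mod_eq_of_lt hv1, Nat.mod_eq_of_lt (Nat.mod_lt _ hm)] at h7
      exact h7
    rw [hFs, Finset.sum_singleton]
    exact hval u huF

theorem t_C1B : S_C1B := by
  intro n hsq hn4 N hN a a' X Y hdet
  have hP : ∀ p ∈ n.primeFactors, p.Prime := fun p hp => Nat.prime_of_mem_primeFactors hp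
  have hprod : ∏ p ∈ n.primeFactors, p = n := Nat.prod_primeFactors_of_squarefree hsq
  have key := gen_C1B n.primeFactors hP a a' X Y N hdet (by
    intro p hp
    have hpp := hP p hp
    have hpn : p ∣ n := Nat.dvd_of_mem_primeFactors hp
    have hns : ¬ p ^ 2 ∣ n := by
      intro h
      rw [pow_two] at h
      exact hpp.one_lt.ne' (Nat.isUnit_iff.1 (hsq p h))
    have hp2 : p ≠ 2 := by
      rintro rfl
      omega
    rcases hN with rfl | rfl
    · exact ⟨hpn, hns⟩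
    · refine ⟨hpn.mul_left 2, fun h => hns ?_⟩
      have hc : Nat.Coprime (p ^ 2) 2 :=
        Nat.Coprime.pow_left 2 ((Nat.coprime_primes hpp Nat.prime_two).2 hp2)
      exact hc.dvd_of_dvd_mul_left h)
  rw [hprod] at key
  exact key

end Pool.Agent.N402.P15
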